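import Pool.Agent.Helper38_LDP.Stmts

/-! Squad LDP: modules DIM and MUL. -/

namespace Pool.Agent.LDP.H48

open Polynomial
open scoped Polynomial.Bivariate

/-- MUL -/
theorem mul : MulStmt := by
  intro ρ a b a' b' L _ g h hg hh i j hij
  rw [Polynomial.coeff_mul, Polynomial.finsetSum_coeff] at hij
  obtain ⟨⟨j₁, j₂⟩, hj, h1⟩ := Finset.exists_ne_zero_of_sum_ne_zero hij
  rw [Polynomial.coeff_mul] at h1
  obtain ⟨⟨i₁, i₂⟩, hi, h2⟩ := Finset.exists_ne_zero_of_sum_ne_zero h1
  rw [Finset.HasAntidiagonal.mem_antidiagonal] at hj hi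
  dsimp only at hj hi h2
  have h3 := hg i₁ j₁ (left_ne_zero_of_mul h2)
  have h4 := hh i₂ j₂ (right_ne_zero_of_mul h2)
  subst hj hi
  rw [mul_add]
  omega

/-- the exponents of `V ρ L a b` -/
def expo (ρ a b : ℕ) : Finset (Σ _ : ℕ, ℕ) :=
  (Finset.range (b + 1)).sigma fun j => Finset.range (a + 1 - ρ * j)

theorem mem_expo {ρ a b i j : ℕ} : (⟨j, i⟩ : Σ _ : ℕ, ℕ) ∈ expo ρ a b ↔ j ≤ b ∧ i + ρ * j ≤ a := by
  rw [expo, Finset.mem_sigma, Finset.mem_range, Finset.mem_range]
  dsimp only
  omega

/-- the coefficients -/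
noncomputable def coeffMap (ρ a b : ℕ) (L : Type) [CommRing L] : V ρ L a b →ₗ[L] (expo ρ a b → L) where
  toFun g s := ((g : L[X][Y]).coeff s.1.1).coeff s.1.2
  map_add' g h := by
    funext s
    simp
  map_smul' c g := by
    funext s
    simp [Polynomial.coeff_smul]

theorem coeffMap_bij (ρ a b : ℕ) (L : Type) [CommRing L] :
    Function.Bijective (coeffMap ρ a b L) := by
  classical
  constructor
  · intro g h hgh
    apply Subtype.ext
    ext j i
    by_cases hs : (⟨j, i⟩ : Σ _ : ℕ, ℕ) ∈ expo ρ a b
    · exact congrFun hgh ⟨_, hs⟩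
    · have h1 : ((g : L[X][Y]).coeff j).coeff i = 0 := by
        by_contra h0
        exact hs (mem_expo.2 (g.2 i j h0))
      have h2 : ((h : L[X][Y]).coeff j).coeff i = 0 := by
        by_contra h0
        exact hs (mem_expo.2 (h.2 i j h0))
      rw [h1, h2]
  · intro c
    have key : ∀ i j : ℕ, ((∑ s : expo ρ a b,
        (monomial s.1.1 (monomial s.1.2 (c s) : L[X]) : L[X][Y])).coeff j).coeff i =
        if h : (⟨j, i⟩ : Σ _ : ℕ, ℕ) ∈ expo ρ a b then c ⟨_, h⟩ else 0 := by
      intro i j
      rw [Polynomial.finsetSum_coeff, Polynomial.finsetSum_coeff]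
      split_ifs with h
      · rw [Finset.sum_eq_single ⟨_, h⟩]
        · simp
        · rintro ⟨⟨j', i'⟩, hs⟩ - hne
          rw [Polynomial.coeff_monomial]
          dsimp only
          split_ifs with h1
          · subst h1
            rw [Polynomial.coeff_monomial, if_neg]
            intro h2
            subst h2
            exact hne rfl
          · simp
        · intro h0
          exact absurd (Finset.mem_univ _) h0
      · apply Finset.sum_eq_zero
        rintro ⟨⟨j', i'⟩, hs⟩ -
        rw [Polynomial.coeff_monomial]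
        dsimp only
        split_ifs with h1
        · subst h1
          rw [Polynomial.coeff_monomial, if_neg]
          intro h2
          subst h2
          exact h hs
        · simp
    refine ⟨⟨∑ s : expo ρ a b, (monomial s.1.1 (monomial s.1.2 (c s) : L[X]) : L[X][Y]), ?_⟩, ?_⟩
    · intro i j hij
      rw [key] at hij
      split_ifs at hij with h
      · exact mem_expo.1 h
      · exact absurd rfl hij
    · funext s
      change ((∑ s : expo ρ a b,
        (monomial s.1.1 (monomial s.1.2 (c s) : L[X]) : L[X][Y])).coeff s.1.1).coeff s.1.2 = c s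
      rw [key, dif_pos s.2]

/-- DIM -/
theorem dim : DimStmt := by
  intro ρ a b L _
  let e := LinearEquiv.ofBijective (coeffMap ρ a b L) (coeffMap_bij ρ a b L)
  refine ⟨Module.Finite.equiv e.symm, ?_⟩
  rw [LinearEquiv.finrank_eq e, Module.finrank_fintype_fun_eq_card, Fintype.card_coe, expo,
    Finset.card_sigma]
  simp [dimV]

end Pool.Agent.LDP.H48
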